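import Pool.Agent.H36.WOT.S1

/-!
# WOT: the invariant is preserved
-/

set_option autoImplicit false

namespace Pool.WOT

/-- The far end of level `j`. -/
def tj (R : ℕ) (y : ℕ → ℕ) (j : ℕ) : ℕ := Nat.findGreatest (fun u => j < y u) R

theorem tj_le_R (R : ℕ) (y : ℕ → ℕ) (j : ℕ) : tj R y j ≤ R := Nat.findGreatest_le R

theorem le_tj {R : ℕ} {y : ℕ → ℕ} {j u : ℕ} (hu : u ≤ R) (h : j < y u) : u ≤ tj R y j :=
  Nat.le_findGreatest hu h

theorem tj_spec {R : ℕ} {y : ℕ → ℕ} {j u : ℕ} (hu : u ≤ R) (h : j < y u) : j < y (tj R y j) := by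
  have := Nat.findGreatest_spec (P := fun u => j < y u) hu h
  exact this

theorem tj_anti (R : ℕ) (y : ℕ → ℕ) (j : ℕ) : tj R y (j + 1) ≤ tj R y j := by
  unfold tj
  exact Nat.findGreatest_mono_left (fun u hu => by
    show j < y u
    have : j + 1 < y u := hu
    omega) R

/-- Monotone part. -/
theorem Inv.anti {m R q L : ℕ} {y : ℕ → ℕ} (h : Inv m R q L y) {t u : ℕ} (ht : q ≤ t)
    (htu : t ≤ u) : y u ≤ y t := by
  induction u, htu using Nat.le_induction with
  | base => exact le_rfl
  | succ u hu ih => exact (h.b u (le_trans ht hu)).trans ih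

theorem Inv.le_q {m R q L : ℕ} {y : ℕ → ℕ} (h : Inv m R q L y) (t : ℕ) : y t ≤ q := by
  rcases le_total t q with h1 | h1
  · rw [h.a t h1]; exact h1
  · exact (h.anti le_rfl h1).trans (by rw [h.a q le_rfl])

theorem Inv.tj_le_L {m R q L : ℕ} {y : ℕ → ℕ} (h : Inv m R q L y) (j : ℕ) : tj R y j ≤ L := by
  by_contra hc
  have h0 : 0 < tj R y j := by omega
  have hs : j < y (tj R y j) :=
    Nat.findGreatest_of_ne_zero (P := fun u => j < y u) rfl (by unfold tj at h0; omega)
  have := h.c (tj R y j) (by omega)
  omega

theorem Inv.q_le_tj {m R q L : ℕ} {y : ℕ → ℕ} (h : Inv m R q L y) {j : ℕ} (hj : j < q) :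
    q ≤ tj R y j :=
  le_tj (h.c2.trans h.cR) (by rw [h.a q le_rfl]; exact hj)

theorem Inv.level {m R q L : ℕ} {y : ℕ → ℕ} (h : Inv m R q L y) {t j : ℕ} (ht : t ≤ R)
    (hj : j < y t) :
    ((Finset.Ioc t R).filter fun u => j < y u).card = tj R y j - t := by
  have hjq : j < q := lt_of_lt_of_le hj (h.le_q t)
  have hq := h.q_le_tj hjq
  have : ((Finset.Ioc t R).filter fun u => j < y u) = Finset.Ioc t (tj R y j) := by
    ext u
    simp only [Finset.mem_filter, Finset.mem_Ioc]
    constructor
    · rintro ⟨⟨h1, h2⟩, h3⟩
      exact ⟨h1, le_tj h2 h3⟩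
    · rintro ⟨h1, h2⟩
      refine ⟨⟨h1, h2.trans (tj_le_R R y j)⟩, ?_⟩
      rcases le_total u q with h4 | h4
      · rw [h.a u h4]
        have : y t = t := h.a t (by omega)
        omega
      · have hs : j < y (tj R y j) := tj_spec (h.c2.trans h.cR) (by rw [h.a q le_rfl]; exact hjq)
        exact lt_of_lt_of_le hs (h.anti h4 h2)
  rw [this, Nat.card_Ioc]

/-- The simple form of a step. -/
def gx (m R : ℕ) (y : ℕ → ℕ) (t : ℕ) : ℕ :=
  ((Finset.range (y t)).filter fun j => t + m ≤ j + tj R y j).card

theorem Inv.nx_eq {m R q L : ℕ} {y : ℕ → ℕ} (h : Inv m R q L y) {t : ℕ} (ht : t ≤ R) :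
    nx m R y t = gx m R y t := by
  unfold nx gx
  have h1 : ((Finset.range (y t)).filter fun j =>
      j + ((Finset.Ioc t R).filter fun u => j < y u).card < m) =
      (Finset.range (y t)).filter fun j => ¬ (t + m ≤ j + tj R y j) := by
    apply Finset.filter_congr
    intro j hj
    have hj' : j < y t := Finset.mem_range.mp hj
    rw [h.level ht hj']
    have := le_tj ht hj'
    constructor <;> intro h2 <;> omega
  rw [h1]
  have h2 := Finset.card_filter_add_card_filter_not (s := Finset.range (y t))
    (fun j => t + m ≤ j + tj R y j)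
  rw [Finset.card_range] at h2
  omega

theorem nx_le (m R : ℕ) (y : ℕ → ℕ) (t : ℕ) : nx m R y t ≤ y t := Nat.sub_le _ _

/-- Discrete intermediate values. -/
theorem ivt (B : ℕ → ℕ) (n v : ℕ) (hs : ∀ i < n, B (i + 1) ≤ B i + 1) (h0 : B 0 ≤ v)
    (hn : v ≤ B n) : ∃ i ≤ n, B i = v := by
  have hex : ∃ i, v ≤ B i := ⟨n, hn⟩
  classical
  obtain ⟨i, hi, hmin⟩ : ∃ i, v ≤ B i ∧ ∀ j < i, ¬ v ≤ B j :=
    ⟨Nat.find hex, Nat.find_spec hex, fun j hj => Nat.find_min hex hj⟩
  have hin : i ≤ n := by
    by_contra hc
    exact hmin n (by omega) hn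
  refine ⟨i, hin, ?_⟩
  rcases Nat.eq_zero_or_pos i with h | h
  · subst h; omega
  · have h1 := hmin (i - 1) (by omega)
    have h2 := hs (i - 1) (by omega)
    rw [Nat.sub_add_cancel h] at h2
    omega

theorem t_ins : INSStmt := by
  intro m R q L y hm h hmq
  classical
  set B : ℕ → ℕ := fun j => j + tj R y j with hB
  have hB0 : B 0 ≤ L := by simpa [hB] using h.tj_le_L 0
  have hBs : ∀ i, B (i + 1) ≤ B i + 1 := by
    intro i
    have := tj_anti R y i
    simp only [hB]
    omega
  have hBL : ∀ j < q, L ≤ B j := by
    intro j hj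
    have h1 := h.q_le_tj hj
    simp only [hB]
    by_cases h2 : L ≤ q + j
    · omega
    · have h3 := h.e hmq (L - j) (by omega) (by omega)
      have h4 : L - j ≤ tj R y j := le_tj (le_trans (by omega) h.cR) (by omega)
      omega
  have hqL := h.c2
  have hLR := h.cR
  have hLq := h.d
  -- (a)
  have ha : ∀ t, t ≤ L - m → nx m R y t = t := by
    intro t ht
    rw [h.nx_eq (by omega)]
    unfold gx
    rw [h.a t (by omega), Finset.filter_true_of_mem, Finset.card_range]
    intro j hj
    have hj' := Finset.mem_range.mp hj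
    have := hBL j (by omega)
    simp only [hB] at this
    omega
  -- (b)
  have hb : ∀ t, L - m ≤ t → nx m R y (t + 1) ≤ nx m R y t := by
    intro t ht
    rcases Nat.lt_or_ge R (t + 1) with h1 | h1
    · have h2 := nx_le m R y (t + 1)
      rw [h.c (t + 1) (by omega)] at h2
      omega
    · rw [h.nx_eq h1, h.nx_eq (show t ≤ R by omega)]
      unfold gx
      rcases le_or_gt q t with h2 | h2
      · apply Finset.card_le_card
        intro j hj
        simp only [Finset.mem_filter, Finset.mem_range] at hj ⊢
        exact ⟨lt_of_lt_of_le hj.1 (h.b t h2), by omega⟩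
      · rw [h.a t h2.le, h.a (t + 1) h2]
        by_cases h3 : t + 1 + m ≤ B t
        · obtain ⟨j, hj, hjB⟩ := ivt B t (t + m) (fun i _ => hBs i) (by omega) (by omega)
          have hjt : j < t := by
            rcases Nat.lt_or_ge j t with h4 | h4
            · exact h4
            · have : j = t := by omega
              subst this
              omega
          have hmem : j ∈ (Finset.range t).filter fun j => t + m ≤ j + tj R y j := by
            simp only [Finset.mem_filter, Finset.mem_range]
            refine ⟨hjt, ?_⟩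
            have : B j = j + tj R y j := rfl
            omega
          have hsub : ((Finset.range (t + 1)).filter fun j => t + 1 + m ≤ j + tj R y j) ⊆
              insert t (((Finset.range t).filter fun j => t + m ≤ j + tj R y j).erase j) := by
            intro i hi
            simp only [Finset.mem_filter, Finset.mem_range] at hi
            simp only [Finset.mem_insert, Finset.mem_erase, Finset.mem_filter, Finset.mem_range]
            by_cases h5 : i = t
            · exact Or.inl h5
            · refine Or.inr ⟨?_, by omega, by omega⟩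
              rintro rfl
              have : B i = i + tj R y i := rfl
              omega
          have h6 := Finset.card_le_card hsub
          have h7 := Finset.card_insert_le t
            (((Finset.range t).filter fun j => t + m ≤ j + tj R y j).erase j)
          have h8 := Finset.card_erase_of_mem hmem
          have h9 : 0 < ((Finset.range t).filter fun j => t + m ≤ j + tj R y j).card :=
            Finset.card_pos.mpr ⟨j, hmem⟩
          omega
        · apply Finset.card_le_card
          intro i hi
          simp only [Finset.mem_filter, Finset.mem_range] at hi ⊢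
          refine ⟨?_, by omega⟩
          rcases Nat.lt_or_ge i t with h4 | h4
          · exact h4
          · have : i = t := by omega
            subst this
            exact absurd hi.2 h3
  set G : ℕ := Nat.findGreatest (fun t => 0 < nx m R y t) R with hG
  have hGR : G ≤ R := Nat.findGreatest_le R
  have hGL : G ≤ L := by
    by_contra hc
    have hs : 0 < nx m R y G :=
      Nat.findGreatest_of_ne_zero (P := fun t => 0 < nx m R y t) rfl (by omega)
    have := nx_le m R y G
    rw [h.c G (by omega)] at this
    omega
  refine ⟨max (L - m) G, ⟨ha, hb, ?_, le_max_left _ _, max_le (by omega) hGR, ?_, ?_⟩⟩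
  · intro t ht
    have h1 : G < t := lt_of_le_of_lt (le_max_right _ _) ht
    rcases Nat.lt_or_ge R t with h2 | h2
    · have h3 := nx_le m R y t
      rw [h.c t (by omega)] at h3
      omega
    · have := Nat.findGreatest_is_greatest (P := fun t => 0 < nx m R y t) h1 h2
      simpa using this
  · have : max (L - m) G ≤ L := max_le (by omega) hGL
    omega
  · intro hmL t ht1 ht2
    have hGt : L - m < G := by
      rcases le_max_iff.mp ht2 with h1 | h1
      · omega
      · omega
    have hmax : max (L - m) G = G := max_eq_right hGt.le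
    rw [hmax] at ht2 ⊢
    have hs : 0 < nx m R y G :=
      Nat.findGreatest_of_ne_zero (P := fun t => 0 < nx m R y t) rfl (by omega)
    rw [h.nx_eq hGR] at hs
    unfold gx at hs
    obtain ⟨i0, hi0⟩ := Finset.card_pos.mp hs
    simp only [Finset.mem_filter, Finset.mem_range] at hi0
    have hex : ∃ i, G + m ≤ B i := ⟨i0, hi0.2⟩
    obtain ⟨js, hjs, hmin⟩ : ∃ i, G + m ≤ B i ∧ ∀ j < i, ¬ G + m ≤ B j :=
      ⟨Nat.find hex, Nat.find_spec hex, fun j hj => Nat.find_min hex hj⟩
    have hji : js ≤ i0 := by
      by_contra hc
      exact hmin i0 (by omega) hi0.2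
    have hjm : js ≤ m := by
      by_contra hc
      have h1 : m < y G := by omega
      have h2 : G ≤ tj R y m := le_tj hGR h1
      exact hmin m (by omega) (by simp only [hB]; omega)
    have hjy : js < y t := by
      rcases le_or_gt t q with h1 | h1
      · rw [h.a t h1]; omega
      · have := h.anti h1.le ht2
        omega
    rw [h.nx_eq (show t ≤ R by omega)]
    unfold gx
    have hsub : Finset.Icc (t + m) (G + m) ⊆
        ((Finset.range (y t)).filter fun j => t + m ≤ j + tj R y j).image B := by
      intro v hv
      rw [Finset.mem_Icc] at hv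
      obtain ⟨i, hi, hiB⟩ := ivt B js v (fun i _ => hBs i) (by omega) (by omega)
      rw [Finset.mem_image]
      refine ⟨i, ?_, hiB⟩
      simp only [Finset.mem_filter, Finset.mem_range]
      refine ⟨by omega, ?_⟩
      have : B i = i + tj R y i := rfl
      omega
    have h1 := (Finset.card_le_card hsub).trans Finset.card_image_le
    rw [Nat.card_Icc] at h1
    omega

end Pool.WOT
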