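import Pool.Agent.H36.WOT.INS

/-!
# WOT: no condition is wasted
-/

set_option autoImplicit false

namespace Pool.WOT

theorem Inv.level_iff {m R q L : ℕ} {y : ℕ → ℕ} (h : Inv m R q L y) {t j : ℕ} (hj : j < q)
    (ht : t ≤ R) : j < y t ↔ j < t ∧ t ≤ tj R y j := by
  constructor
  · intro h1
    refine ⟨?_, le_tj ht h1⟩
    rcases le_total t q with h2 | h2
    · rw [h.a t h2] at h1; exact h1
    · omega
  · rintro ⟨h1, h2⟩
    rcases le_total t q with h3 | h3
    · rw [h.a t h3]; exact h1
    · have hs : j < y (tj R y j) := tj_spec (h.c2.trans h.cR) (by rw [h.a q le_rfl]; exact hj)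
      exact lt_of_lt_of_le hs (h.anti h3 h2)

theorem t_sum : SUMStmt := by
  intro m R q L y hm h hmq
  classical
  -- removed part
  set r : ℕ → ℕ := fun t =>
    ((Finset.range (y t)).filter fun j => j + tj R y j < t + m).card with hr
  have hsplit : ∀ t ∈ Finset.range (R + 1), nx m R y t + r t = y t := by
    intro t ht
    have htR : t ≤ R := by have := Finset.mem_range.mp ht; omega
    rw [h.nx_eq htR]
    unfold gx
    have h2 := Finset.card_filter_add_card_filter_not (s := Finset.range (y t))
      (fun j => t + m ≤ j + tj R y j)
    rw [Finset.card_range] at h2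
    have h3 : ((Finset.range (y t)).filter fun j => ¬ (t + m ≤ j + tj R y j)) =
        (Finset.range (y t)).filter fun j => j + tj R y j < t + m := by
      apply Finset.filter_congr
      intro j _
      omega
    rw [h3] at h2
    exact h2
  have hsum : ∑ t ∈ Finset.range (R + 1), r t = m * (m + 1) / 2 := by
    have h1 : ∀ t ∈ Finset.range (R + 1), r t = ∑ j ∈ Finset.range q,
        if (j < t ∧ t ≤ tj R y j) ∧ j + tj R y j < t + m then 1 else 0 := by
      intro t ht
      have htR : t ≤ R := by have := Finset.mem_range.mp ht; omega
      rw [← Finset.card_filter]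
      apply congrArg Finset.card
      ext j
      simp only [Finset.mem_filter, Finset.mem_range]
      constructor
      · rintro ⟨h2, h3⟩
        have hjq : j < q := lt_of_lt_of_le h2 (h.le_q t)
        exact ⟨hjq, (h.level_iff hjq htR).mp h2, h3⟩
      · rintro ⟨h2, h3, h4⟩
        exact ⟨(h.level_iff h2 htR).mpr h3, h4⟩
    rw [Finset.sum_congr rfl h1, Finset.sum_comm]
    have h2 : ∀ j ∈ Finset.range q, (∑ t ∈ Finset.range (R + 1),
        if (j < t ∧ t ≤ tj R y j) ∧ j + tj R y j < t + m then 1 else 0) = m - j := by
      intro j hj
      have hjq := Finset.mem_range.mp hj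
      have hq := h.q_le_tj hjq
      have hR := tj_le_R R y j
      rw [← Finset.card_filter]
      have h3 : ((Finset.range (R + 1)).filter fun t =>
          (j < t ∧ t ≤ tj R y j) ∧ j + tj R y j < t + m) =
          Finset.Ioc (max j (j + tj R y j - m)) (tj R y j) := by
        ext t
        simp only [Finset.mem_filter, Finset.mem_range, Finset.mem_Ioc]
        omega
      rw [h3, Nat.card_Ioc]
      omega
    rw [Finset.sum_congr rfl h2]
    have h4 : ∑ j ∈ Finset.range q, (m - j) = ∑ j ∈ Finset.range m, (m - j) := by
      symm
      apply Finset.sum_subset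
      · intro j hj
        rw [Finset.mem_range] at hj ⊢
        omega
      · intro j _ hj
        rw [Finset.mem_range] at hj
        omega
    rw [h4]
    clear * -
    have h5 : ∀ n : ℕ, (∑ j ∈ Finset.range n, (n - j)) * 2 = n * (n + 1) := by
      intro n
      induction n with
      | zero => simp
      | succ n ih =>
        rw [Finset.sum_range_succ']
        have : ∑ j ∈ Finset.range n, (n + 1 - (j + 1)) = ∑ j ∈ Finset.range n, (n - j) :=
          Finset.sum_congr rfl (fun j _ => by omega)
        rw [this, add_mul, ih]
        simp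
        ring
    have := h5 m
    omega
  rw [← Finset.sum_congr rfl hsplit, Finset.sum_add_distrib, hsum]

end Pool.WOT
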