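import Pool.Agent.H36.WOT.S1
import Pool.Agent.H49.FOS.S1

/-! Board `wot`, row WOT: from the triangle to the general form. -/

set_option autoImplicit false

namespace Pool.WOT

open MvPolynomial Pool.FOS Pool.TRN

theorem t_wot (h_fat : FATStmt) (h_vnt : VNTStmt) (h_ong : ONGStmt) (h_ter : Pool.FOS.TERStmt) :
    WOTStmt := by
  intro k d s hk _ hs
  obtain ⟨P, hP⟩ := h_vnt (d + 1) (s + 1) (k * d) (h_fat (d + 1) s (k * d) (by omega) (by
    simpa [add_assoc] using hs))
  exact h_ter 3 k d (s + 1) (by omega) (h_ong 1 k d (s + 1) P (by omega) hP)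

end Pool.WOT
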