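import Pool.Agent.H36.WOT.S1
import Pool.Agent.H36.WOT.INS
import Pool.Agent.H36.WOT.SUM
import Pool.Agent.H36.WOT.WOT
import Pool.Agent.H62.WOT.BIN
import Pool.Agent.H62.WOT.DYN
import Pool.Agent.H2.WOT.RED
import Pool.Agent.H21.WOT.ITR
import Pool.Agent.H21.WOT.STP
import Pool.Agent.H7.WOT.FIN
import Pool.Agent.H49.FOS.TER
import Pool.Agent.H61.FOS.JAC
import Pool.Agent.H62.FOS.DOM
import Pool.Agent.H27.FOS.DU1
import Pool.Agent.H27.FOS.DU2
import Pool.Agent.H2.TRN.DIF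
import Pool.Agent.H2.TRN.LOW
import Pool.Agent.H2.TRN.VNT
import Pool.Agent.H55.TRN.ONG
import Pool.Agent.H79.TRN.CNT

/-! WOT: assembly. -/

set_option autoImplicit false

namespace Pool.WOT

open MvPolynomial Pool.FOS Pool.TRN

theorem fat_all : FATStmt := t_fat (t_itr (t_stp t_bin t_red)) (t_dyn t_ins t_sum t_fin)

/-- The generic `k`-rank of ternary forms of degree `k * d` is at most the dimension count
plus one. -/
theorem wot_all : WOTStmt :=
  t_wot fat_all (Pool.TRN.t_vnt Pool.TRN.t_dif)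
    (Pool.TRN.t_ong Pool.FOS.t_du1 Pool.FOS.t_du2) (Pool.FOS.t_ter Pool.FOS.t_jac Pool.FOS.t_dom)

end Pool.WOT
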