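import Pool.Agent.H36.WOT.All
import Pool.Agent.H49.TRN.All
import Pool.Agent.H49.TRO.S1
import Pool.Agent.H49.TRO.CTZ
import Pool.Agent.H20.TRO.COB
import Pool.Agent.H20.TRO.COC
import Pool.Agent.H20.TRO.COR
import Pool.Agent.H20.TRO.TRO
import Pool.Agent.H21.TRO.COA
import Pool.Agent.H21.TRO.NMC
import Pool.Agent.H3.TRO.ROD
import Pool.Agent.H80.TRO.RCT
import Pool.Agent.H89.TRO.KI
import Pool.Agent.H89.TRO.LWR

/-! WOT and TRO combined: the final theorem for ternary forms. -/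

set_option autoImplicit false

namespace Pool.WOT

open MvPolynomial Pool.FOS Pool.TRN Pool.TRO

theorem kia_all : KIAStmt := t_kia Pool.TRN.t_pel

theorem kib_all : KIBStmt := t_kib t_swp kia_all

theorem cor_all : CORStmt :=
  t_cor t_ctz t_sbs (t_coa kia_all kib_all) (t_cob kia_all kib_all) (t_coc kia_all)

theorem upr_all : UPRStmt := t_upr t_cut t_sbs (t_stu t_pel t_cut t_sbs)

theorem tro_all : TROStmt :=
  t_tro t_sbs t_cut upr_all cor_all (t_rct t_pel t_cut t_sbs) (Pool.TRO.t_lwr t_pel t_cut t_sbs)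

theorem rod_all : RODStmt :=
  t_rod tro_all (t_vnt t_dif) (t_ong t_du1 t_du2) (t_ter t_jac t_dom) t_nmc

theorem low3 (k d s : ℕ) (hk : 2 ≤ k) (hd : 1 ≤ d)
    (h : s * ((d + 1) * (d + 2)) < (k * d + 1) * (k * d + 2)) : ¬ GenLe 3 k d s :=
  (res_all k d hk hd).2.2.2 s h

theorem two_rk (k d s : ℕ) (hk : 2 ≤ k) (hd : 1 ≤ d) (hs : 1 ≤ s)
    (h1 : (s - 1) * ((d + 1) * (d + 2)) < (k * d + 1) * (k * d + 2))
    (h2 : (k * d + 1) * (k * d + 2) ≤ s * ((d + 1) * (d + 2))) :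
    GenRk 3 k d s ∨ GenRk 3 k d (s + 1) := by
  have hg := wot_all k d s (by omega) hd h2
  have hlow : ∀ t < s, ¬ GenLe 3 k d t := fun t ht =>
    low3 k d t hk hd (lt_of_le_of_lt (Nat.mul_le_mul_right _ (by omega)) h1)
  by_cases hc : GenLe 3 k d s
  · exact Or.inl ⟨hc, hlow⟩
  · refine Or.inr ⟨hg, fun t ht => ?_⟩
    rcases Nat.lt_or_ge t s with h | h
    · exact hlow t h
    · have : t = s := by omega
      exact this ▸ hc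

theorem one_num (k d : ℕ) (hk : 4 ≤ k) (hd : 3 * k ^ 2 ≤ 2 * d + 3 * k + 4) :
    (k ^ 2 - 1 - 1) * ((d + 1) * (d + 2)) < (k * d + 1) * (k * d + 2) := by
  obtain ⟨c, rfl⟩ : ∃ c, k = c + 4 := ⟨k - 4, by omega⟩
  have h2 : (c + 4) ^ 2 - 1 - 1 = c ^ 2 + 8 * c + 14 := by
    have : (c + 4) ^ 2 = c ^ 2 + 8 * c + 16 := by ring
    omega
  rw [h2]
  nlinarith [Nat.zero_le c, Nat.zero_le d, Nat.zero_le (c * d), Nat.zero_le (c ^ 2 * d),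
    Nat.zero_le (d ^ 2), Nat.zero_le (c ^ 2), Nat.zero_le (c ^ 3), Nat.zero_le (c ^ 4),
    Nat.mul_le_mul_left d hd]

theorem comb_all (k d : ℕ) (hk : 2 ≤ k) (hd : 1 ≤ d) :
    (∀ s : ℕ, 1 ≤ s → (s - 1) * ((d + 1) * (d + 2)) < (k * d + 1) * (k * d + 2) →
      (k * d + 1) * (k * d + 2) ≤ s * ((d + 1) * (d + 2)) →
      GenRk 3 k d s ∨ GenRk 3 k d (s + 1)) ∧
    (∀ q : ℕ, k ≤ d + 2 → q < k → 2 * q * d ≤ (k - 1 - q) * (3 * k - q) →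
      GenLe 3 k d (k ^ 2 - 2 * q) ∧
      ((k ^ 2 - 2 * q - 1) * ((d + 1) * (d + 2)) < (k * d + 1) * (k * d + 2) →
        GenRk 3 k d (k ^ 2 - 2 * q))) ∧
    (∀ u : ℕ, k ≤ d + 2 → u + 3 ≤ k → 4 ≤ k → (2 * u + 1) * d ≤ (k - 3 - u) * (3 * k - u - 1) →
      GenLe 3 k d (k ^ 2 - (2 * u + 1)) ∧
      ((k ^ 2 - (2 * u + 1) - 1) * ((d + 1) * (d + 2)) < (k * d + 1) * (k * d + 2) →
        GenRk 3 k d (k ^ 2 - (2 * u + 1)))) ∧
    (3 ≤ k → k ^ 2 - k - 2 ≤ d → 2 * d ≤ (k - 2) * (3 * k - 1) → GenRk 3 k d (k ^ 2 - 2)) ∧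
    (4 ≤ k → 3 * k ^ 2 ≤ 2 * d + 3 * k + 4 → d ≤ (k - 3) * (3 * k - 1) →
      GenRk 3 k d (k ^ 2 - 1)) := by
  have hodd : ∀ u : ℕ, k ≤ d + 2 → u + 3 ≤ k → 4 ≤ k →
      (2 * u + 1) * d ≤ (k - 3 - u) * (3 * k - u - 1) → GenLe 3 k d (k ^ 2 - (2 * u + 1)) ∧
      ((k ^ 2 - (2 * u + 1) - 1) * ((d + 1) * (d + 2)) < (k * d + 1) * (k * d + 2) →
        GenRk 3 k d (k ^ 2 - (2 * u + 1))) := by
    intro u h1 h2 h3 h4
    have hg := rod_all k d u h3 hd h1 (by omega) h4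
    refine ⟨hg, fun hl => exact_of k d _ hk hd hg ?_ hl⟩
    obtain ⟨c, rfl⟩ : ∃ c, k = u + 3 + c := ⟨k - (u + 3), by omega⟩
    have : (u + 3 + c) ^ 2 = (2 * u + 1) + 1 + (u ^ 2 + c ^ 2 + 2 * c * (u + 3) + 4 * u + 7) := by
      ring
    omega
  refine ⟨fun s h1 h2 h3 => two_rk k d s hk hd h1 h2 h3, (trn_all k d hk hd).1, hodd,
    (trn_all k d hk hd).2.1, fun h1 h2 h3 => ?_⟩
  have hkd : k ≤ d + 2 := by
    obtain ⟨c, rfl⟩ : ∃ c, k = c + 4 := ⟨k - 4, by omega⟩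
    have : 3 * (c + 4) ^ 2 = 3 * c ^ 2 + 24 * c + 48 := by ring
    have : 0 ≤ c ^ 2 := Nat.zero_le _
    omega
  have hl : (k ^ 2 - (2 * 0 + 1) - 1) * ((d + 1) * (d + 2)) < (k * d + 1) * (k * d + 2) := by
    simpa using one_num k d h1 h2
  have h0 := (hodd 0 hkd (by omega) h1 (by simpa using h3)).2 hl
  simpa using h0

end Pool.WOT
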