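import Pool.Agent.H49.TRN.S1

/-!
# WOT: ternary forms, the generic `k`-rank is at most one more than the dimension count (statements)
-/

set_option autoImplicit false

namespace Pool.WOT

open MvPolynomial Pool.FOS Pool.TRN

/-- One step: remove one point of multiplicity `m` (rows are counted from the top, `1 ≤ t ≤ R`). -/
def nx (m R : ℕ) (y : ℕ → ℕ) (t : ℕ) : ℕ :=
  y t - ((Finset.range (y t)).filter fun j =>
    j + ((Finset.Ioc t R).filter fun u => j < y u).card < m).card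

/-- The region with rows of length `y t` (row `c = R - t`). -/
def Sh (R : ℕ) (y : ℕ → ℕ) : Finset (ℕ × ℕ) :=
  (Finset.range R).biUnion fun c => (Finset.range (y (R - c))).image fun x => (x, c)

/-- The invariant of the process. -/
structure Inv (m R q L : ℕ) (y : ℕ → ℕ) : Prop where
  a : ∀ t, t ≤ q → y t = t
  b : ∀ t, q ≤ t → y (t + 1) ≤ y t
  c : ∀ t, L < t → y t = 0
  c2 : q ≤ L
  cR : L ≤ R
  d : L ≤ q + m
  e : m ≤ q → ∀ t, q < t → t ≤ L → L + 1 ≤ y t + t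

/-- BIN: binomial coefficients at consecutive integers. -/
def BINStmt : Prop :=
  ∀ (f z : ℕ) (J : Finset ℕ) (lam : ℕ → ℂ), J ⊆ Finset.range z → J.card = f →
    (∀ x, z ≤ x + f → x < z → ∑ j ∈ J, lam j * (Nat.choose x j : ℂ) = 0) → ∀ j ∈ J, lam j = 0

/-- RED: reduction by one point. The point `(T, T ^ (-M))`, `T` large, sees first the lowest row,
in a row the exponents on the right. -/
def REDStmt : Prop :=
  ∀ (m s : ℕ) (Z U : Finset (ℕ × ℕ)), U ⊆ Z →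
    (∀ u ∈ U, ∃ q : MvPolynomial (Fin 2) ℂ, q.totalDegree < m ∧ ev u q = 1 ∧
      ∀ a ∈ Z, a ≠ u → (a ∈ U ∨ a.2 < u.2 ∨ (a.2 = u.2 ∧ u.1 < a.1)) → ev a q = 0) →
    Cov m s (Z \ U) → Cov m (s + 1) Z

/-- STP: one step of the process. -/
def STPStmt : Prop :=
  ∀ (m s R : ℕ) (y : ℕ → ℕ), Cov m s (Sh R (nx m R y)) → Cov m (s + 1) (Sh R y)

/-- ITR: the process, iterated. -/
def ITRStmt : Prop :=
  ∀ (m s R : ℕ) (y : ℕ → ℕ), (∀ t, 1 ≤ t → t ≤ R → (nx m R)^[s] y t = 0) → Cov m s (Sh R y)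

/-- INS: the invariant is preserved as long as `m ≤ q`. -/
def INSStmt : Prop :=
  ∀ (m R q L : ℕ) (y : ℕ → ℕ), 1 ≤ m → Inv m R q L y → m ≤ q →
    ∃ L', Inv m R (L - m) L' (nx m R y)

/-- SUM: and no condition is wasted. -/
def SUMStmt : Prop :=
  ∀ (m R q L : ℕ) (y : ℕ → ℕ), 1 ≤ m → Inv m R q L y → m ≤ q →
    (∑ t ∈ Finset.range (R + 1), nx m R y t) + m * (m + 1) / 2 = ∑ t ∈ Finset.range (R + 1), y t

/-- FIN: the last steps. -/
def FINStmt : Prop :=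
  ∀ (m R q L : ℕ) (y : ℕ → ℕ), 1 ≤ m → Inv m R q L y → q < m →
    (∀ t, t ≤ R → (nx m R)^[3] y t = 0) ∧
    ((∑ t ∈ Finset.range (R + 1), y t) ≤ m * (m + 1) / 2 → ∀ t, t ≤ R → (nx m R)^[2] y t = 0)

/-- DYN: the process ends in time. -/
def DYNStmt : Prop :=
  ∀ (m R q L s : ℕ) (y : ℕ → ℕ), 1 ≤ m → Inv m R q L y →
    (∑ t ∈ Finset.range (R + 1), y t) ≤ s * (m * (m + 1) / 2) →
    ∀ t, t ≤ R → (nx m R)^[s + 1] y t = 0

/-- FAT: one point more than the dimension count. -/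
def FATStmt : Prop :=
  ∀ m s D : ℕ, 1 ≤ m → (D + 1) * (D + 2) ≤ s * (m * (m + 1)) → Cov m (s + 1) (Tri D)

/-- WOT: the generic `k`-rank of ternary forms is at most the dimension count plus one. -/
def WOTStmt : Prop :=
  ∀ k d s : ℕ, 1 ≤ k → 1 ≤ d → (k * d + 1) * (k * d + 2) ≤ s * ((d + 1) * (d + 2)) →
    GenLe 3 k d (s + 1)

end Pool.WOT
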